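import Pool.Agent.H92.SG.Stmts

/-!
# Module TWT of board sg7: the space of fixed vectors is large
-/

namespace Pool.Agent.H99.SG

open Pool.Agent.H92.SG

section lin

variable {R : Type} [CommRing R] {m : ℕ}

theorem uu_add (t : Rˣ) (e : AddChar (ZMod m) R) (a : ℕ → ZMod m) (N : ℕ) :
    ∀ (v w : V2 R) (i : ℕ), uu t e a (v + w) N i = uu t e a v N i + uu t e a w N i := by
  induction N with
  | zero => intro v w i; rfl
  | succ N ih =>
    intro v w i
    simp only [uu]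
    split_ifs with h
    · rfl
    · rw [map_add, ih]

theorem uu_smul (t : Rˣ) (e : AddChar (ZMod m) R) (a : ℕ → ZMod m) (N : ℕ) :
    ∀ (r : R) (v : V2 R) (i : ℕ), uu t e a (r • v) N i = r • uu t e a v N i := by
  induction N with
  | zero => intro r v i; rfl
  | succ N ih =>
    intro r v i
    simp only [uu]
    split_ifs with h
    · rfl
    · rw [map_smul, ih]

/-- The constants as a linear map. -/
def cstL (t : Rˣ) (e : AddChar (ZMod m) R) (N : ℕ) (a : ℕ → ZMod m) (i : ℕ) :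
    V2 R →ₗ[R] V2 R where
  toFun v := cst t e N a v i
  map_add' v w := by
    simp only [cst, uu_add]; abel
  map_smul' r v := by
    simp only [cst, uu_smul, RingHom.id_apply, smul_sub]

end lin

/-- The set of nontrivial blocks. -/
abbrev Ix (n : ℕ) (z : ℕ → ℕ) : Type := {j // j ∈ (Finset.range n).filter fun j => z j ≠ 0}

/-- The space of parameters. -/
abbrev Dm (n : ℕ) (z : ℕ → ℕ) : Type := V2 ℂ × (Ix n z → ℂ)

/-- The coordinate of the block `j`. -/
noncomputable def RL (n : ℕ) (z : ℕ → ℕ) (j : ℕ) : Dm n z →ₗ[ℂ] ℂ :=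
  if h : j ∈ (Finset.range n).filter fun j => z j ≠ 0 then
    (LinearMap.proj (R := ℂ) (φ := fun _ : Ix n z => ℂ) ⟨j, h⟩) ∘ₗ
      LinearMap.snd ℂ (V2 ℂ) (Ix n z → ℂ)
  else 0

theorem RL_zero {n : ℕ} {z : ℕ → ℕ} {j : ℕ} (h : z j = 0) (x : Dm n z) : RL n z j x = 0 := by
  have : ¬ (j ∈ (Finset.range n).filter fun j => z j ≠ 0) := by simp [h]
  unfold RL
  rw [dif_neg this]; rfl

theorem RL_mem {n : ℕ} {z : ℕ → ℕ} (j : Ix n z) (x : Dm n z) : RL n z j.1 x = x.2 j := by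
  unfold RL
  rw [dif_pos j.2]; rfl

/-- The swap. -/
def swL : V2 ℂ →ₗ[ℂ] V2 ℂ where
  toFun v := ![v 1, v 0]
  map_add' v w := by funext i; fin_cases i <;> simp
  map_smul' r v := by funext i; fin_cases i <;> simp

/-- `(1 - G(0))⁻¹`. -/
noncomputable def vvL : V2 ℂ →ₗ[ℂ] V2 ℂ where
  toFun x := ![(1 - om3 ^ 2)⁻¹ * (x 0 + om3 * x 1), (1 - om3 ^ 2)⁻¹ * (x 1 + om3 * x 0)]
  map_add' v w := by funext i; fin_cases i <;> simp <;> ring
  map_smul' r v := by funext i; fin_cases i <;> simp <;> ring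

/-- The vector `(1, -1)`. -/
def ee : V2 ℂ := ![1, -1]

/-- The coefficient of the first entry of `v0`. -/
noncomputable def cc (z : ℕ) : ℂ := if z = 1 then 2 * om3 + 1 else om3 - 1

theorem v0_zero (z : ℕ) : v0 z 0 = cc z • ee := by
  unfold v0 cc ee
  by_cases h : z = 1
  · simp only [h, if_true]; funext i; fin_cases i <;> simp; ring
  · simp only [h, if_false]; funext i; fin_cases i <;> simp

theorem v0_three (z : ℕ) : v0 z 3 = 0 := by
  unfold v0
  by_cases h : z = 1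
  · simp [h]
  · simp [h]

theorem v0_two (z : ℕ) : v0 z 2 ≠ 0 := by
  unfold v0
  by_cases h : z = 1
  · simp only [h, if_true]
    intro h0
    have := congrFun h0 1
    simp at this
  · simp only [h, if_false]
    intro h0
    have := congrFun h0 1
    simp at this

/-- The vectors on the strands `3j`. -/
noncomputable def UL (n : ℕ) (z : ℕ → ℕ) : ℕ → (Dm n z →ₗ[ℂ] V2 ℂ)
  | 0 => LinearMap.fst ℂ (V2 ℂ) (Ix n z → ℂ)
  | j + 1 => swL ∘ₗ UL n z j + (RL n z j).smulRight (cc (z j) • ee)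

theorem UL_succ (n : ℕ) (z : ℕ → ℕ) (j : ℕ) (x : Dm n z) :
    UL n z (j + 1) x = swL (UL n z j x) + RL n z j x • (cc (z j) • ee) := rfl

/-- The vector on the strand `m`. -/
noncomputable def SL (n k : ℕ) (z : ℕ → ℕ) (a : ℕ → ZMod (3 ^ (k + 1))) (m : ℕ) :
    Dm n z →ₗ[ℂ] V2 ℂ :=
  if m % 3 = 0 then UL n z (m / 3) else
    (cstL tC (eC k) 4 (fun i => a (3 * (m / 3) + i)) (m % 3)) ∘ₗ vvL ∘ₗ UL n z (m / 3 + 1) +
      (RL n z (m / 3)).smulRight (v0 (z (m / 3)) (m % 3))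

theorem om_sq_ne : (1 : ℂ) - om3 ^ 2 ≠ 0 := by
  intro h
  have h3 := om3_cube
  have h2 : om3 ^ 2 = 1 := by linear_combination -h
  have h1 : om3 = 1 := by
    have : om3 ^ 3 = om3 ^ 2 * om3 := by ring
    rw [h3, h2, one_mul] at this
    exact this.symm
  have hh : Complex.exp (2 * Real.pi * Complex.I / 3) = 1 := h1
  rw [Complex.exp_eq_one_iff] at hh
  obtain ⟨q, hq⟩ := hh
  have hpi : (2 * Real.pi * Complex.I : ℂ) ≠ 0 := by
    simp [Real.pi_ne_zero]
  have h4 : (1 : ℂ) / 3 = q := by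
    have : (2 * Real.pi * Complex.I : ℂ) * (1 / 3) = (2 * Real.pi * Complex.I : ℂ) * q := by
      rw [mul_comm (2 * Real.pi * Complex.I : ℂ) (q : ℂ), ← hq]; ring
    exact mul_left_cancel₀ hpi this
  have h5 : ((3 * q : ℤ) : ℂ) = ((1 : ℤ) : ℂ) := by
    push_cast; rw [← h4]; norm_num
  have h6 : 3 * q = 1 := by exact_mod_cast h5
  omega

section blk

variable {m : ℕ} (e : AddChar (ZMod m) ℂ) (A : ℕ → ZMod m)

theorem blk3 (h3 : A 3 = 0) (x : V2 ℂ) : cst tC e 4 A (vvL x) 3 = x := by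
  have h := om_sq_ne
  have hi : (1 - om3 ^ 2)⁻¹ * (1 - om3 ^ 2) = 1 := inv_mul_cancel₀ h
  simp only [cst, uu]
  norm_num
  funext i
  fin_cases i
  · simp [Gm, vvL, h3, tC]
    linear_combination (x 0) * hi
  · simp [Gm, vvL, h3, tC]
    linear_combination (x 1) * hi

theorem blk0 (h0 : A 0 = 0) (h12 : A 1 = A 2) (h3 : A 3 = 0) (u : V2 ℂ) (q : ℂ) :
    cst tC e 4 A (vvL (swL u + q • ee)) 0 + q • ee = u := by
  have h := om_sq_ne
  have hi : (1 - om3 ^ 2)⁻¹ * (1 - om3 ^ 2) = 1 := inv_mul_cancel₀ h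
  have hc := om3_cube
  have he : e (A 2) * e (-(A 2)) = 1 := by
    rw [← AddChar.map_add_eq_mul]; simp
  simp only [cst, uu]
  norm_num
  funext i
  fin_cases i
  · simp [Gm, vvL, swL, ee, h0, h12, h3, tC]
    linear_combination (u 0 - q) * (om3 ^ 3 * ((1 - om3 ^ 2)⁻¹ * (1 - om3 ^ 2)) * he +
      ((1 - om3 ^ 2)⁻¹ * (1 - om3 ^ 2)) * hc + hi)
  · simp [Gm, vvL, swL, ee, h0, h12, h3, tC]
    linear_combination (u 1 + q) * (om3 ^ 3 * ((1 - om3 ^ 2)⁻¹ * (1 - om3 ^ 2)) * he +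
      ((1 - om3 ^ 2)⁻¹ * (1 - om3 ^ 2)) * hc + hi)

end blk

/-- Extension by zero. -/
noncomputable def extL (N : ℕ) : (Fin N → V2 ℂ) →ₗ[ℂ] (ℕ → V2 ℂ) where
  toFun v := fun i => if h : i < N then v ⟨i, h⟩ else 0
  map_add' v w := by
    funext i
    by_cases h : i < N
    · simp [h]
    · simp [h]
  map_smul' r v := by
    funext i
    by_cases h : i < N
    · simp [h]
    · simp [h]

theorem extL_lt {N i : ℕ} (h : i < N) (v : Fin N → V2 ℂ) : extL N v i = v ⟨i, h⟩ := by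
  show (if h : i < N then v ⟨i, h⟩ else 0) = _
  rw [dif_pos h]

/-- The parametrisation. -/
noncomputable def PhL (n k : ℕ) (z : ℕ → ℕ) (a : ℕ → ZMod (3 ^ (k + 1))) :
    Dm n z →ₗ[ℂ] (Fin (3 * n + 1) → V2 ℂ) :=
  LinearMap.pi fun i => SL n k z a i

theorem ext_Ph {n k : ℕ} {z : ℕ → ℕ} {a : ℕ → ZMod (3 ^ (k + 1))} {i : ℕ} (h : i < 3 * n + 1)
    (x : Dm n z) : extL (3 * n + 1) (PhL n k z a x) i = SL n k z a i x := by
  rw [extL_lt h]; rfl

theorem SL_zero (n k : ℕ) (z : ℕ → ℕ) (a : ℕ → ZMod (3 ^ (k + 1))) (j : ℕ) (x : Dm n z) :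
    SL n k z a (3 * j) x = UL n z j x := by
  have h1 : (3 * j) % 3 = 0 := by omega
  have h2 : (3 * j) / 3 = j := by omega
  unfold SL
  rw [if_pos h1, h2]

theorem SL_mid (n k : ℕ) (z : ℕ → ℕ) (a : ℕ → ZMod (3 ^ (k + 1))) (j i : ℕ) (hi : i ≠ 0)
    (hi3 : i < 3) (x : Dm n z) :
    SL n k z a (3 * j + i) x = cst tC (eC k) 4 (fun i => a (3 * j + i))
      (vvL (UL n z (j + 1) x)) i + RL n z j x • v0 (z j) i := by
  have h1 : (3 * j + i) % 3 = i := by omega
  have h2 : (3 * j + i) / 3 = j := by omega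
  unfold SL
  rw [h1, h2, if_neg hi]
  rfl

theorem SL_blk {n k : ℕ} {z : ℕ → ℕ} {a : ℕ → ZMod (3 ^ (k + 1))} (hP : Pat n k z a)
    {j : ℕ} (hj : j < n) (x : Dm n z) (i : ℕ) (hi : i < 4) :
    SL n k z a (3 * j + i) x = cst tC (eC k) 4 (fun i => a (3 * j + i))
      (vvL (UL n z (j + 1) x)) i + RL n z j x • v0 (z j) i := by
  obtain ⟨hP0, hP1⟩ := hP
  have ha0 : a (3 * j + 0) = 0 := hP0 j (by omega)
  have ha3 : a (3 * j + 3) = 0 := by
    have := hP0 (j + 1) (by omega)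
    rwa [show 3 * (j + 1) = 3 * j + 3 by ring] at this
  have ha12 : a (3 * j + 1) = a (3 * j + 2) := by rw [(hP1 j hj).1, (hP1 j hj).2]
  interval_cases i
  · have h := blk0 (eC k) (fun i => a (3 * j + i)) ha0 ha12 ha3 (UL n z j x)
      (RL n z j x * cc (z j))
    have h2 : (RL n z j x * cc (z j)) • ee = RL n z j x • (cc (z j) • ee) := by
      rw [smul_smul]
    rw [h2, ← UL_succ, ← v0_zero] at h
    rw [h]
    exact SL_zero n k z a j x
  · exact SL_mid n k z a j 1 (by omega) (by omega) x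
  · exact SL_mid n k z a j 2 (by omega) (by omega) x
  · have h := blk3 (eC k) (fun i => a (3 * j + i)) ha3 (UL n z (j + 1) x)
    rw [h, v0_three, smul_zero, add_zero, show 3 * j + 3 = 3 * (j + 1) by ring]
    exact SL_zero n k z a (j + 1) x

theorem Ph_inj {n k : ℕ} {z : ℕ → ℕ} {a : ℕ → ZMod (3 ^ (k + 1))} (hP : Pat n k z a) :
    Function.Injective (PhL n k z a) := by
  rw [injective_iff_map_eq_zero]
  intro x hx
  have hS : ∀ i < 3 * n + 1, SL n k z a i x = 0 := by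
    intro i hi
    have := congrFun hx ⟨i, hi⟩
    exact this
  have hU : ∀ j ≤ n, UL n z j x = 0 := by
    intro j hj
    rw [← SL_zero n k z a j x]
    exact hS _ (by omega)
  have hR : ∀ j : Ix n z, x.2 j = 0 := by
    intro j
    have hjn : j.1 < n := by
      have := j.2
      simp only [Finset.mem_filter, Finset.mem_range] at this
      exact this.1
    have h := SL_blk hP hjn x 2 (by omega)
    rw [hS _ (by omega), hU (j.1 + 1) (by omega), map_zero] at h
    have h0 : cst tC (eC k) 4 (fun i => a (3 * j.1 + i)) 0 2 = 0 :=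
      map_zero (cstL tC (eC k) 4 (fun i => a (3 * j.1 + i)) 2)
    rw [h0, zero_add] at h
    have h2 := smul_eq_zero.mp h.symm
    rcases h2 with h2 | h2
    · rw [← RL_mem]; exact h2
    · exact absurd h2 (v0_two _)
  have hx1 : x.1 = 0 := hU 0 (by omega)
  exact Prod.ext hx1 (funext hR)

theorem β77_mem : β77 ∈ Bn 4 := by
  have h0 : σ 0 ∈ Bn 4 := σ_mem_Bn (by norm_num)
  have h1 : σ 1 ∈ Bn 4 := σ_mem_Bn (by norm_num)
  have h2 : σ 2 ∈ Bn 4 := σ_mem_Bn (by norm_num)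
  unfold β77
  exact mul_mem (mul_mem (mul_mem (mul_mem (mul_mem (mul_mem (inv_mem h0) h1) (inv_mem h0)) h1)
    (inv_mem h2)) h1) (inv_mem h2)

theorem TWT_thm (hTWA : TwA) (hTWB : TwB) (hTWC : TwCstStmt) (hKL2 : KL2Stmt)
    (hBLKC : BlkColStmt) (hBLKT : BlkTStmt) (_hDIHA : DihA) (_hDIHB : DihB) : TwTStmt := by
  intro n k z a hz hP
  set N := 3 * n + 1 with hN
  let twL : (ℕ → V2 ℂ) →ₗ[ℂ] (ℕ → V2 ℂ) :=
    { toFun := fun s => tw tC (eC k) (nfold 4 β77 n) a s
      map_add' := fun s s' => hTWA.add _ _ _ _ _ _ _ _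
      map_smul' := fun r s => hTWA.smul _ _ _ _ _ _ _ _ }
  let T : Submodule ℂ (Fin N → V2 ℂ) := LinearMap.ker (twL ∘ₗ extL N - extL N)
  have hT : ∀ v, v ∈ T ↔ tw tC (eC k) (nfold 4 β77 n) a (extL N v) = extL N v := by
    intro v
    rw [LinearMap.mem_ker, LinearMap.sub_apply, sub_eq_zero]
    rfl
  have hmem : ∀ x : Dm n z, PhL n k z a x ∈ T := by
    intro x
    rw [hT, hBLKT n k z a hP]
    intro j hj i hi
    set A : ℕ → ZMod (3 ^ (k + 1)) := fun i => a (3 * j + i) with hA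
    have hg : ∀ i < 4, extL N (PhL n k z a x) (3 * j + i) =
        (cst tC (eC k) 4 A (vvL (UL n z (j + 1) x)) + RL n z j x • v0 (z j)) i := by
      intro i hi
      rw [ext_Ph (by omega)]
      exact SL_blk hP hj x i hi
    have h1 := hTWB.loc2 ℂ _ tC (eC k) 4 β77 β77_mem A A
      (fun i => extL N (PhL n k z a x) (3 * j + i))
      (cst tC (eC k) 4 A (vvL (UL n z (j + 1) x)) + RL n z j x • v0 (z j))
      (fun _ _ => rfl) hg i hi
    rw [h1, hg i hi, hTWA.add, hTWA.smul, hTWC ℂ _ tC (eC k) 4 β77 β77_mem]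
    have hAA : dih (ZMod (3 ^ (k + 1))) β77 A = A := (hBLKC.2 n k z a hP).2 j hj
    rw [hAA]
    by_cases hz0 : z j = 0
    · rw [RL_zero hz0, zero_smul, zero_smul]
    · have hP1 : Pat 1 k (fun _ => z j) A := by
        refine ⟨?_, ?_⟩
        · intro j' hj'
          have h2 := hP.1 (j + j') (by omega)
          rw [show 3 * (j + j') = 3 * j + 3 * j' by ring] at h2
          exact h2
        · intro j' hj'
          have h0 : j' = 0 := by omega
          subst h0
          exact hP.2 j hj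
      rw [hKL2 k (z j) (hz j) hz0 A hP1]
  refine ⟨T, ?_, ?_⟩
  · have hle := LinearMap.finrank_le_finrank_of_injective
      (f := LinearMap.codRestrict T (PhL n k z a) hmem)
      (by
        intro x y hxy
        apply Ph_inj hP
        have := congrArg Subtype.val hxy
        exact this)
    have hd : Module.finrank ℂ (Dm n z) = 2 + wt n z := by
      rw [Module.finrank_prod, Module.finrank_fin_fun, Module.finrank_fintype_fun_eq_card,
        Fintype.card_coe]
      rfl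
    rw [hd] at hle
    exact hle
  · intro v hv s hs
    have hv' := (hT v).mp hv
    have hmemN : nfold 4 β77 n ∈ Bn N := hBLKC.1 n
    have hsv : ∀ i < N, s i = extL N v i := by
      intro i hi
      rw [extL_lt hi]
      exact hs ⟨i, hi⟩
    funext i
    by_cases hi : i < N
    · rw [hTWB.loc2 ℂ _ tC (eC k) N _ hmemN a a s (extL N v) (fun _ _ => rfl) hsv i hi, hv',
        hsv i hi]
    · exact hTWB.loc1 ℂ _ tC (eC k) N _ hmemN a s i (by omega)

end Pool.Agent.H99.SG
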